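import Pool.Agent.Helper2.EG.Stmts

set_option autoImplicit false

namespace Pool.Agent.Helper2.EG

theorem st_QD : ST_QD := by
  intro hDU hCNT hDEN hDIR m r u hm hr hq
  refine hDEN hCNT _ ?_
  intro δ hδ
  obtain ⟨z, hz⟩ := hDIR m r hm hr δ hδ
  classical
  set S : Finset ℕ := (Finset.range z).filter (fun q => q.Prime ∧ q ≡ r [MOD m]) with hS
  have hSp : ∀ q ∈ S, q < z ∧ q.Prime ∧ q ≡ r [MOD m] := by
    intro q hqS
    rw [hS, Finset.mem_filter, Finset.mem_range] at hqS
    exact hqS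
  let e : Fin S.card ≃ S := S.equivFin.symm
  let mm : ℕ → ℕ := fun k => if h : k < S.card then ((e ⟨k, h⟩ : S) : ℕ) else 1
  have hmm : ∀ k (h : k < S.card), mm k = ((e ⟨k, h⟩ : S) : ℕ) := by
    intro k h
    simp [mm, h]
  have hmem : ∀ k, k < S.card → mm k ∈ S := by
    intro k h
    rw [hmm k h]
    exact (e ⟨k, h⟩).2
  let A : ℕ → Finset ℕ := fun k => (Finset.range (mm k)).filter (fun v => ¬ mm k ∣ v ^ 2 + u)
  have hcard : ∀ k, k < S.card → ((A k).card : ℝ) / (mm k : ℝ) ≤ 1 - 1 / (mm k : ℝ) := by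
    intro k hk
    obtain ⟨hkz, hkp, hkr⟩ := hSp _ (hmem k hk)
    obtain ⟨t, ht⟩ := hq _ hkp hkr
    have hsub : A k ⊆ (Finset.range (mm k)).erase (t % mm k) := by
      intro v hv
      rw [Finset.mem_filter] at hv
      rw [Finset.mem_erase]
      refine ⟨?_, hv.1⟩
      intro hvt
      apply hv.2
      rw [hvt]
      have h1 : (t % mm k) ^ 2 + u ≡ t ^ 2 + u [MOD mm k] :=
        Nat.ModEq.add_right _ ((Nat.mod_modEq t (mm k)).pow 2)
      exact (h1.dvd_iff (dvd_refl _)).2 ht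
    have hc1 : (A k).card ≤ mm k - 1 := by
      have h2 := Finset.card_le_card hsub
      rw [Finset.card_erase_of_mem (Finset.mem_range.2 (Nat.mod_lt _ hkp.pos)), Finset.card_range] at h2
      exact h2
    have hpos : (0 : ℝ) < (mm k : ℝ) := by exact_mod_cast hkp.pos
    rw [div_le_iff₀ hpos, sub_mul, one_mul, div_mul_cancel₀ _ hpos.ne']
    have hc2 : (A k).card + 1 ≤ mm k := by
      have := hkp.pos
      omega
    have hc3 : ((A k).card : ℝ) + 1 ≤ (mm k : ℝ) := by exact_mod_cast hc2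
    linarith
  refine ⟨S.card, mm, A, ?_, ?_, ?_, ?_, ?_⟩
  · intro k hk
    exact (hSp _ (hmem k hk)).2.1.pos
  · intro i hi j hj hij
    have hpi := (hSp _ (hmem i hi)).2.1
    have hpj := (hSp _ (hmem j hj)).2.1
    rw [Nat.coprime_primes hpi hpj]
    intro heq
    apply hij
    rw [hmm i hi, hmm j hj] at heq
    have h1 := e.injective (Subtype.ext heq)
    exact congrArg Fin.val h1
  · intro k hk
    exact Finset.filter_subset _ _
  · have hle : (∏ k ∈ Finset.range S.card, ((A k).card : ℝ) / (mm k : ℝ)) ≤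
        ∏ k ∈ Finset.range S.card, (1 - 1 / (mm k : ℝ)) := by
      refine Finset.prod_le_prod ?_ ?_
      · intro k hk
        positivity
      · intro k hk
        exact hcard k (Finset.mem_range.1 hk)
    have heq : (∏ k ∈ Finset.range S.card, (1 - 1 / (mm k : ℝ))) = ∏ q ∈ S, (1 - 1 / (q : ℝ)) := by
      rw [Finset.prod_range]
      have h1 : ∀ i : Fin S.card, (1 - 1 / ((mm i : ℕ) : ℝ)) = (fun q : S => (1 - 1 / ((q : ℕ) : ℝ))) (e i) := by
        intro i
        simp only [hmm i.1 i.2]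
      rw [Finset.prod_congr rfl (fun i _ => h1 i), Equiv.prod_comp e (fun q : S => (1 - 1 / ((q : ℕ) : ℝ)))]
      exact Finset.prod_coe_sort S (fun q : ℕ => (1 - 1 / (q : ℝ)))
    exact le_trans hle (heq.trans_le hz)
  · refine ⟨{n | n < z}, hDU.2.2.1 _ (Set.finite_lt_nat z), ?_⟩
    intro n hn
    by_cases hnz : n < z
    · exact Or.inl hnz
    · refine Or.inr ?_
      intro k hk
      obtain ⟨hkz, hkp, hkr⟩ := hSp _ (hmem k hk)
      rw [Finset.mem_filter]
      refine ⟨Finset.mem_range.2 (Nat.mod_lt _ hkp.pos), ?_⟩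
      intro hd
      apply hn
      refine ⟨mm k, hkp, hkr, by omega, ?_⟩
      have h1 : (n % mm k) ^ 2 + u ≡ n ^ 2 + u [MOD mm k] :=
        Nat.ModEq.add_right _ ((Nat.mod_modEq n (mm k)).pow 2)
      exact (h1.dvd_iff (dvd_refl _)).1 hd

end Pool.Agent.Helper2.EG
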